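import Pool.Agent.Work.MP_228e0c_al.H45.Final

/-! A finite basis of identities whose monomial instances generate all identities as an ideal. -/

set_option autoImplicit false

namespace Pool.Agent.Work.MP_228e0c_al.Mono

open FreeAlgebra H45 Submodule

variable {K : Type} [Field K]

/-- a word in the variables -/
noncomputable def wd (K : Type) [Field K] (l : List ℕ) : F K := (l.map (ι K)).prod

lemma wd_append (l l' : List ℕ) : wd K (l ++ l') = wd K l * wd K l' := by simp [wd]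

lemma map_wd (φ : F K →ₐ[K] F K) (l : List ℕ) :
    φ (wd K l) = (l.map fun i => φ (ι K i)).prod := by
  rw [wd, map_list_prod, List.map_map]; rfl

lemma span_wd (g : F K) : g ∈ span K (Set.range (wd K)) := by
  have h : g ∈ (Algebra.adjoin K (Set.range (ι K : ℕ → F K))).toSubmodule := by
    rw [adjoin_range_ι]; trivial
  rw [Algebra.adjoin_eq_span] at h
  refine span_mono (fun x hx => ?_) h
  induction hx using Submonoid.closure_induction with
  | mem x hx => obtain ⟨i, rfl⟩ := hx; exact ⟨[i], by simp [wd]⟩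
  | one => exact ⟨[], rfl⟩
  | mul x y _ _ h1 h2 =>
    obtain ⟨l, rfl⟩ := h1
    obtain ⟨l', rfl⟩ := h2
    exact ⟨l ++ l', wd_append l l'⟩

/-- polynomials of degree at most `d` -/
noncomputable def Fd (K : Type) [Field K] (d : ℕ) : Submodule K (F K) :=
  span K (wd K '' {l | l.length ≤ d})

lemma Fd_mono {a b : ℕ} (h : a ≤ b) : Fd K a ≤ Fd K b :=
  span_mono (Set.image_mono fun _ hl => le_trans hl h)

lemma Fd_mul {a b : ℕ} {x y : F K} (hx : x ∈ Fd K a) (hy : y ∈ Fd K b) : x * y ∈ Fd K (a + b) := by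
  have h := mul_mem_mul hx hy
  rw [Fd, Fd, span_mul_span] at h
  refine span_mono ?_ h
  rintro _ ⟨_, ⟨l, hl, rfl⟩, _, ⟨l', hl', rfl⟩, rfl⟩
  exact ⟨l ++ l', by simpa using add_le_add hl hl', wd_append l l'⟩

lemma ex_Fd (g : F K) : ∃ d, g ∈ Fd K d := by
  induction span_wd g using span_induction with
  | mem x hx => obtain ⟨l, rfl⟩ := hx; exact ⟨l.length, subset_span ⟨l, le_refl l.length, rfl⟩⟩
  | zero => exact ⟨0, zero_mem _⟩
  | add x y _ _ h1 h2 =>
    obtain ⟨a, ha⟩ := h1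
    obtain ⟨b, hb⟩ := h2
    exact ⟨max a b, add_mem (Fd_mono (le_max_left _ _) ha) (Fd_mono (le_max_right _ _) hb)⟩
  | smul c x _ h => obtain ⟨a, ha⟩ := h; exact ⟨a, smul_mem _ c ha⟩

lemma Fd_map {φ : F K →ₐ[K] F K} (h : ∀ i, φ (ι K i) ∈ Fd K 1) {d : ℕ} {g : F K}
    (hg : g ∈ Fd K d) : φ g ∈ Fd K d := by
  have h1 : ∀ l : List ℕ, φ (wd K l) ∈ Fd K l.length := by
    intro l
    induction l with
    | nil => exact subset_span ⟨[], le_refl 0, (map_one φ).symm⟩
    | cons i l ih =>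
      have := Fd_mul (h i) ih
      rwa [← map_mul, add_comm] at this
  refine (span_le (p := (Fd K d).comap φ.toLinearMap)).2 ?_ hg
  rintro _ ⟨l, hl, rfl⟩
  exact Fd_mono hl (h1 l)

/-- span of the words of length at most `d` with letters in `T` that contain all letters of `U` -/
noncomputable def SP (K : Type) [Field K] (d : ℕ) (U T : Finset ℕ) : Submodule K (F K) :=
  span K (wd K '' {l | l.length ≤ d ∧ (∀ i ∈ l, i ∈ T) ∧ ∀ i ∈ U, i ∈ l})

lemma ex_SP {d : ℕ} {g : F K} (hg : g ∈ Fd K d) : ∃ T, g ∈ SP K d ∅ T := by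
  have mono : ∀ {T T' : Finset ℕ}, T ⊆ T' → SP K d ∅ T ≤ SP K d ∅ T' := fun h =>
    span_mono (Set.image_mono fun l hl => ⟨hl.1, fun i hi => h (hl.2.1 i hi), hl.2.2⟩)
  induction hg using span_induction with
  | mem x hx =>
    obtain ⟨l, hl, rfl⟩ := hx
    exact ⟨l.toFinset, subset_span ⟨l, ⟨hl, by simp, by simp⟩, rfl⟩⟩
  | zero => exact ⟨∅, zero_mem _⟩
  | add x y _ _ h1 h2 =>
    obtain ⟨a, ha⟩ := h1
    obtain ⟨b, hb⟩ := h2
    exact ⟨a ∪ b, add_mem (mono Finset.subset_union_left ha) (mono Finset.subset_union_right hb)⟩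
  | smul c x _ h => obtain ⟨a, ha⟩ := h; exact ⟨a, smul_mem _ c ha⟩

lemma SP_fg (d : ℕ) : (SP K d ∅ (Finset.range d)).FG := by
  refine fg_span (Set.Finite.image _ ?_)
  refine ((List.finite_length_le (Fin d) d).image (List.map Fin.val)).subset ?_
  rintro l ⟨h1, h2, -⟩
  refine ⟨l.attach.map fun i => ⟨i.1, Finset.mem_range.1 (h2 _ i.2)⟩, by simpa using h1, ?_⟩
  rw [List.map_map]
  exact List.attach_map_subtype_val l

/-- substitution of zero for one variable -/
noncomputable def zz (K : Type) [Field K] (i : ℕ) : F K →ₐ[K] F K :=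
  lift K fun j => if j = i then 0 else ι K j

lemma zz_wd (i : ℕ) (l : List ℕ) : zz K i (wd K l) = if i ∈ l then 0 else wd K l := by
  rw [map_wd]
  split_ifs with h
  · exact List.prod_eq_zero (List.mem_map.2 ⟨i, h, by simp [zz]⟩)
  · refine congrArg List.prod (List.map_congr_left fun j hj => ?_)
    have : j ≠ i := fun e => h (e ▸ hj)
    simp [zz, this]

lemma zz_SP {d i : ℕ} {U T : Finset ℕ} {g : F K} (hg : g ∈ SP K d U T) :
    zz K i g ∈ SP K d U (T.erase i) ∧ g - zz K i g ∈ SP K d (insert i U) T := by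
  induction hg using span_induction with
  | mem x hx =>
    obtain ⟨l, ⟨h1, h2, h3⟩, rfl⟩ := hx
    rw [zz_wd]
    split_ifs with h
    · refine ⟨zero_mem _, ?_⟩
      rw [sub_zero]
      exact subset_span ⟨l, ⟨h1, h2, by simpa [h] using h3⟩, rfl⟩
    · rw [sub_self]
      exact ⟨subset_span ⟨l, ⟨h1, fun j hj => Finset.mem_erase.2 ⟨fun e => h (e ▸ hj), h2 j hj⟩,
        h3⟩, rfl⟩, zero_mem _⟩
  | zero => simp
  | add x y _ _ h1 h2 =>
    rw [map_add, add_sub_add_comm]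
    exact ⟨add_mem h1.1 h2.1, add_mem h1.2 h2.2⟩
  | smul c x _ h =>
    rw [map_smul, ← smul_sub]
    exact ⟨smul_mem _ c h.1, smul_mem _ c h.2⟩

lemma ren_SP {d : ℕ} {U T : Finset ℕ} (hT : T.card ≤ d) : ∃ ρ ρ' : ℕ → ℕ, ∀ g ∈ SP K d U T,
    ren K ρ' g ∈ SP K d ∅ (Finset.range d) ∧ ren K ρ (ren K ρ' g) = g := by
  let ρ' : ℕ → ℕ := fun i => if h : i ∈ T then T.equivFin ⟨i, h⟩ else 0
  let ρ : ℕ → ℕ := fun j => if h : j < T.card then T.equivFin.symm ⟨j, h⟩ else 0
  have h1 : ∀ i ∈ T, ρ' i < d ∧ ρ (ρ' i) = i := fun i hi => by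
    have := (T.equivFin ⟨i, hi⟩).2
    simp only [ρ, ρ', dif_pos hi, dif_pos this]
    exact ⟨by omega, by simp⟩
  have h2 : ∀ (σ : ℕ → ℕ) (l : List ℕ), ren K σ (wd K l) = wd K (l.map σ) := fun σ l => by
    rw [map_wd, wd, List.map_map]
    simp only [ren_ι]
    rfl
  refine ⟨ρ, ρ', fun g hg => ?_⟩
  induction hg using span_induction with
  | mem x hx =>
    obtain ⟨l, ⟨a1, a2, -⟩, rfl⟩ := hx
    rw [h2, h2, List.map_map]
    refine ⟨subset_span ⟨_, ⟨by simpa using a1, fun j hj => ?_, by simp⟩, rfl⟩, ?_⟩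
    · obtain ⟨i, hi, rfl⟩ := List.mem_map.1 hj
      exact Finset.mem_range.2 (h1 i (a2 i hi)).1
    · rw [List.map_congr_left (f := ρ ∘ ρ') (g := id) fun i hi => (h1 i (a2 i hi)).2, List.map_id]
  | zero => simp
  | add x y _ _ h1 h2 => simp only [map_add, h1.2, h2.2, and_true]; exact add_mem h1.1 h2.1
  | smul c x _ h => simp only [map_smul, h.2, and_true]; exact smul_mem _ c h.1

/-- Decomposition into parts with few variables. -/
lemma few {d : ℕ} {I J : Submodule K (F K)} (hI : ∀ φ : F K →ₐ[K] F K, ∀ g ∈ I, φ g ∈ I)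
    (hJ : ∀ ρ, ∀ g ∈ J, ren K ρ g ∈ J) (h0 : I ⊓ SP K d ∅ (Finset.range d) ≤ J) (n : ℕ) :
    ∀ U T : Finset ℕ, (T \ U).card = n → ∀ g ∈ I, g ∈ SP K d U T → g ∈ J := by
  induction n with
  | zero =>
    intro U T hn g h1 h2
    rcases le_or_gt T.card d with c | c
    · obtain ⟨ρ, ρ', h⟩ := ren_SP (K := K) (U := U) c
      rw [← (h g h2).2]
      exact hJ _ _ (h0 ⟨hI _ _ h1, (h g h2).1⟩)
    · refine (span_le.2 ?_ : SP K d U T ≤ J) h2
      rintro _ ⟨l, ⟨a1, -, a3⟩, rfl⟩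
      have h3 : T ⊆ l.toFinset := fun i hi => List.mem_toFinset.2
        (a3 i (Finset.sdiff_eq_empty_iff_subset.1 (Finset.card_eq_zero.1 hn) hi))
      have := (Finset.card_le_card h3).trans l.toFinset_card_le
      omega
  | succ n ih =>
    intro U T hn g h1 h2
    obtain ⟨i, hi⟩ : (T \ U).Nonempty := Finset.card_pos.1 (by omega)
    obtain ⟨a1, a2⟩ := zz_SP (i := i) h2
    rw [← add_sub_cancel (zz K i g) g]
    refine add_mem (ih U _ ?_ _ (hI _ _ h1) a1) (ih _ T ?_ _ (sub_mem h1 (hI _ _ h1)) a2)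
    · rw [Finset.erase_sdiff_comm, Finset.card_erase_of_mem hi, hn]; rfl
    · rw [Finset.sdiff_insert, Finset.card_erase_of_mem hi, hn]; rfl

theorem monomial_basis [Infinite K] : ∃ S : Finset (F K), ∀ f : F K,
    (∀ v : ℕ → M2 K, lift K v f = 0) ↔ f ∈ TwoSidedIdeal.span {g | ∃ s ∈ S, ∃ w : ℕ → List ℕ,
      (∀ i, w i ≠ []) ∧ g = lift K (fun i => wd K (w i)) s} := by
  obtain ⟨S0, h1, h2⟩ := finite_basis (K := K)
  choose dd hd using ex_Fd (K := K)
  obtain ⟨d, hd'⟩ := (h1.image dd).bddAbove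
  have hI : ∀ φ : F K →ₐ[K] F K, ∀ g ∈ TI S0, φ g ∈ TI S0 := fun φ g hg => by
    simpa using TI_mul hg 1 1 φ
  have := Module.Finite.of_fg (SP_fg (K := K) d)
  obtain ⟨S, hS⟩ : (TI S0 ⊓ SP K d ∅ (Finset.range d)).FG :=
    Module.Finite.iff_fg.1 (Module.Finite.of_injective (inclusion inf_le_right)
      (inclusion_injective _))
  refine ⟨S, fun f => ⟨fun hf => ?_, fun hf v => ?_⟩⟩
  · set B := TwoSidedIdeal.span {g | ∃ s ∈ S, ∃ w : ℕ → List ℕ,
      (∀ i, w i ≠ []) ∧ g = lift K (fun i => wd K (w i)) s}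
    have sm : ∀ (c : K) (x : F K), x ∈ B → c • x ∈ B := fun c x hx => by
      rw [Algebra.smul_def]
      exact B.mul_mem_left _ _ hx
    let J : Submodule K (F K) :=
      { carrier := {g | ∀ w : ℕ → List ℕ, (∀ i, w i ≠ []) → lift K (fun i => wd K (w i)) g ∈ B}
        add_mem' := fun ha hb w hw => by rw [map_add]; exact B.add_mem (ha w hw) (hb w hw)
        zero_mem' := fun w _ => by rw [map_zero]; exact B.zero_mem
        smul_mem' := fun c x hx w hw => by rw [map_smul]; exact sm c _ (hx w hw) }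
    have hJ : ∀ ρ, ∀ g ∈ J, ren K ρ g ∈ J := fun ρ g hg w hw => by
      rw [lift_map]
      simpa only [ren_ι, lift_ι_apply] using hg (fun i => w (ρ i)) fun i => hw _
    have h0 : TI S0 ⊓ SP K d ∅ (Finset.range d) ≤ J := by
      rw [← hS, span_le]
      exact fun s hs w hw => TwoSidedIdeal.subset_span ⟨s, hs, w, hw, rfl⟩
    let e : ℕ → List ℕ := fun n =>
      (Nat.unpair n).1 :: (Denumerable.eqv (List ℕ)).symm (Nat.unpair n).2
    let ψ : F K →ₐ[K] F K := lift K fun i => wd K (e i)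
    have hψ : ∀ g : F K, ∃ x ∈ Fd K 1, ψ x = g := fun g => by
      refine (span_le (p := (Fd K 1).map ψ.toLinearMap)).2 ?_ (span_wd g)
      rintro _ ⟨l, rfl⟩
      cases l with
      | nil => exact ⟨1, subset_span ⟨[], by simp, rfl⟩, map_one ψ⟩
      | cons i l =>
        exact ⟨ι K (Nat.pair i (Denumerable.eqv (List ℕ) l)),
          subset_span ⟨[Nat.pair i (Denumerable.eqv (List ℕ) l)], le_refl 1, by simp [wd]⟩,
          by simp [ψ, e]⟩
    have key : ∀ (φ : F K →ₐ[K] F K), ∀ s ∈ S0, φ s ∈ B := fun φ s hs => by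
      choose x x1 x2 using fun i => hψ (φ (ι K i))
      have a1 : lift K x s ∈ Fd K d :=
        Fd_map (fun i => by simpa using x1 i) (Fd_mono (hd' ⟨s, hs, rfl⟩) (hd s))
      obtain ⟨T, hT⟩ := ex_SP a1
      have a2 := few hI hJ h0 _ ∅ T rfl _ (hI _ _ (TI_subset hs)) hT e
        fun i => List.cons_ne_nil _ _
      have a3 : ψ.comp (lift K x) = φ := FreeAlgebra.hom_ext (funext fun i => by simpa using x2 i)
      rw [← a3]
      exact a2
    have hf' := (h2 f).2 hf
    clear hf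
    induction hf' using span_induction with
    | mem x hx =>
      obtain ⟨a, b, φ, s, hs, rfl⟩ := hx
      exact B.mul_mem_right _ _ (B.mul_mem_left _ _ (key φ s hs))
    | zero => exact B.zero_mem
    | add x y _ _ a1 a2 => exact B.add_mem a1 a2
    | smul c x _ a => exact sm c x a
  · refine (TwoSidedIdeal.mem_ker (lift K v)).1 (TwoSidedIdeal.mem_span_iff.1 hf _ ?_)
    rintro _ ⟨s, hs, w, -, rfl⟩
    have : s ∈ TI S0 ⊓ SP K d ∅ (Finset.range d) := hS ▸ subset_span hs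
    exact (TwoSidedIdeal.mem_ker (lift K v)).2 ((h2 _).1 (hI _ _ this.1) v)

end Pool.Agent.Work.MP_228e0c_al.Mono
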